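import Mathlib

/-!
# Counting core for codes with a light subspace
-/

set_option autoImplicit false

namespace Pool.Agent.MP8bL

open Finset

/-- The estimate at one member. -/
theorem core1 {α : Type} (T : Finset α) (b μ : α → ℚ) (p c n M : ℚ)
    (hμ : ∀ v ∈ T, 0 < μ v) (hp : 0 ≤ p) (hc : 1 < c)
    (hLI : ∀ v ∈ T, p - μ v ≤ b v * (c - 1)) (hn : (T.card : ℚ) = n) (hM0 : 0 < M)
    (hsum : ∑ v ∈ T, μ v ≤ M) (hE : (n + c - 1) * M ≤ p * n ^ 2) :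
    1 ≤ ∑ v ∈ T, b v / μ v := by
  have h1 : (∑ v ∈ T, (1 : ℚ)) ^ 2 ≤ (∑ v ∈ T, μ v) * ∑ v ∈ T, (μ v)⁻¹ :=
    sum_sq_le_sum_mul_sum_of_sq_le_mul T (fun v hv => (hμ v hv).le)
      (fun v hv => (inv_pos.mpr (hμ v hv)).le)
      (fun v hv => by rw [one_pow, mul_inv_cancel₀ (hμ v hv).ne'])
  have h0 : 0 ≤ ∑ v ∈ T, (μ v)⁻¹ := sum_nonneg (fun v hv => (inv_pos.mpr (hμ v hv)).le)
  have h2 : n ^ 2 ≤ M * ∑ v ∈ T, (μ v)⁻¹ := by
    have h3 : (∑ v ∈ T, (1 : ℚ)) = n := by rw [← hn, sum_const, nsmul_eq_mul, mul_one]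
    rw [h3] at h1
    exact h1.trans (mul_le_mul_of_nonneg_right hsum h0)
  have h3 : p * (∑ v ∈ T, (μ v)⁻¹) - n ≤ (c - 1) * ∑ v ∈ T, b v / μ v := by
    have h4 : ∀ v ∈ T, p * (μ v)⁻¹ - 1 ≤ (c - 1) * (b v / μ v) := by
      intro v hv
      have h5 := hμ v hv
      have h6 := mul_le_mul_of_nonneg_right (hLI v hv) (inv_pos.mpr h5).le
      rw [sub_mul, mul_inv_cancel₀ h5.ne'] at h6
      calc p * (μ v)⁻¹ - 1 ≤ b v * (c - 1) * (μ v)⁻¹ := h6
        _ = (c - 1) * (b v / μ v) := by rw [div_eq_mul_inv]; ring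
    have h7 := sum_le_sum h4
    rw [sum_sub_distrib, ← mul_sum, ← mul_sum, sum_const, nsmul_eq_mul, mul_one, hn] at h7
    exact h7
  have h8 : (c - 1) * M ≤ M * ((c - 1) * ∑ v ∈ T, b v / μ v) := by
    have h9 : M * (p * (∑ v ∈ T, (μ v)⁻¹) - n) ≤ M * ((c - 1) * ∑ v ∈ T, b v / μ v) :=
      mul_le_mul_of_nonneg_left h3 hM0.le
    have h10 : p * n ^ 2 ≤ p * (M * ∑ v ∈ T, (μ v)⁻¹) := mul_le_mul_of_nonneg_left h2 hp
    nlinarith [h9, h10, hE]
  have h11 : 0 < M * (c - 1) := mul_pos hM0 (by linarith)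
  by_contra hneg
  push Not at hneg
  have h12 : M * (c - 1) * (∑ v ∈ T, b v / μ v) < M * (c - 1) * 1 :=
    mul_lt_mul_of_pos_left hneg h11
  nlinarith [h8, h12]

open scoped Classical in
/-- Summing the estimates over all members. -/
theorem core2 {α ι : Type} (Al : Finset α) (C : Finset ι) (inc : α → ι → Prop) (ν : ι → ℚ)
    (b : α → ℚ) (hν : ∀ U ∈ C, 0 ≤ ν U)
    (h0 : ∀ v ∈ Al, ∑ U ∈ C.filter (fun U => inc v U), ν U = 0 → 0 ≤ b v)
    (h1 : ∀ W ∈ C, 0 < ν W → 1 ≤ ∑ v ∈ Al.filter (fun v => inc v W),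
      b v / ∑ U ∈ C.filter (fun U => inc v U), ν U) :
    ∑ W ∈ C, ν W ≤ ∑ v ∈ Al, b v := by
  have e1 : ∀ v ∈ Al, (b v / ∑ U ∈ C.filter (fun U => inc v U), ν U) *
      ∑ U ∈ C.filter (fun U => inc v U), ν U ≤ b v := by
    intro v hv
    rcases eq_or_ne (∑ U ∈ C.filter (fun U => inc v U), ν U) 0 with h | h
    · rw [h, mul_zero]; exact h0 v hv h
    · rw [div_mul_cancel₀ _ h]
  have e2 : ∑ v ∈ Al, (b v / ∑ U ∈ C.filter (fun U => inc v U), ν U) *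
      ∑ U ∈ C.filter (fun U => inc v U), ν U =
      ∑ W ∈ C, ν W * ∑ v ∈ Al.filter (fun v => inc v W),
        b v / ∑ U ∈ C.filter (fun U => inc v U), ν U := by
    have e3 : ∀ v ∈ Al, (b v / ∑ U ∈ C.filter (fun U => inc v U), ν U) *
        ∑ U ∈ C.filter (fun U => inc v U), ν U =
        ∑ W ∈ C, if inc v W then (b v / ∑ U ∈ C.filter (fun U => inc v U), ν U) * ν W else 0 := by
      intro v _
      rw [mul_sum, sum_filter]
    rw [sum_congr rfl e3, sum_comm]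
    refine sum_congr rfl (fun W _ => ?_)
    rw [mul_sum, sum_filter]
    refine sum_congr rfl (fun v _ => ?_)
    by_cases h : inc v W
    · rw [if_pos h, if_pos h, mul_comm]
    · rw [if_neg h, if_neg h]
  calc ∑ W ∈ C, ν W ≤ ∑ W ∈ C, ν W * ∑ v ∈ Al.filter (fun v => inc v W),
        b v / ∑ U ∈ C.filter (fun U => inc v U), ν U := by
        refine sum_le_sum (fun W hW => ?_)
        rcases (hν W hW).lt_or_eq with h | h
        · have := mul_le_mul_of_nonneg_left (h1 W hW h) h.le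
          rwa [mul_one] at this
        · rw [← h, zero_mul]
    _ = _ := e2.symm
    _ ≤ ∑ v ∈ Al, b v := sum_le_sum e1

end Pool.Agent.MP8bL
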