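import Pool.Agent.Lib.MP_8b575b_co.Light.Lin

/-!
# Degree inequalities for codes with a light subspace
-/

set_option autoImplicit false
set_option linter.unusedSectionVars false

namespace Pool.Agent.MP8bL

open Finset Module

variable {K V : Type} [Field K] [Fintype K] [AddCommGroup V] [Module K V] [Fintype V]

/-- The number of nonzero vectors of `U ∩ S`. -/
noncomputable def nu (S U : Submodule K V) : ℚ := ((F (U ⊓ S)).card : ℚ) - 1

theorem one_le_card_F (U : Submodule K V) : (1 : ℚ) ≤ ((F U).card : ℚ) := by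
  have h : 0 < (F U).card := card_pos.mpr ⟨0, (mem_F U 0).mpr U.zero_mem⟩
  exact_mod_cast h

theorem nu_nonneg (S U : Submodule K V) : 0 ≤ nu S U := by
  have := one_le_card_F (U ⊓ S)
  unfold nu; linarith

open scoped Classical in
/-- If the members through `v` are disjoint from `S` there are at most `q ^ k` of them. -/
theorem deg0 (k : ℕ) (hk : 2 ≤ k) (hV : finrank K V = 2 * k) (C : Finset (Submodule K V))
    (hC : ∀ U ∈ C, finrank K U = k)
    (hd : ∀ U ∈ C, ∀ W ∈ C, U ≠ W → finrank K ↥(U ⊓ W) ≤ 1)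
    (S : Submodule K V) (hS : finrank K S = k) (v : V) (hv : v ∉ S)
    (h0 : ∑ U ∈ C.filter (fun U => v ∈ U), nu S U = 0) :
    0 ≤ (Fintype.card K : ℚ) ^ k - ((C.filter (fun U => v ∈ U)).card : ℚ) := by
  have hq : (2 : ℚ) ≤ (Fintype.card K : ℚ) := by
    exact_mod_cast Fintype.one_lt_card (α := K)
  have h1 := count C hd S ⊤ v hv le_top
  have h2 : ∀ U ∈ C.filter (fun U => v ∈ U), (((F (U ⊓ ⊤)).card : ℚ) -
      (Fintype.card K : ℚ) * ((F (U ⊓ S)).card : ℚ)) =
      ((Fintype.card K : ℚ) ^ k - (Fintype.card K : ℚ)) - (Fintype.card K : ℚ) * nu S U := by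
    intro U hU
    rw [mem_filter] at hU
    rw [inf_top_eq, card_F U, hC U hU.1]
    unfold nu
    push_cast
    ring
  rw [sum_congr rfl h2, sum_sub_distrib, ← mul_sum, h0, sum_const, nsmul_eq_mul, mul_zero,
    sub_zero, card_F ⊤, card_F S, hS, finrank_top, hV] at h1
  push_cast at h1
  have h3 : (Fintype.card K : ℚ) ^ (2 * k) = (Fintype.card K : ℚ) ^ k * (Fintype.card K : ℚ) ^ k := by
    rw [two_mul, pow_add]
  rw [h3] at h1
  have h4 : (0 : ℚ) < (Fintype.card K : ℚ) ^ k - (Fintype.card K : ℚ) := by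
    have h5 : (Fintype.card K : ℚ) ^ 2 ≤ (Fintype.card K : ℚ) ^ k :=
      pow_le_pow_right₀ (by linarith) hk
    nlinarith
  have h6 : ((C.filter (fun U => v ∈ U)).card : ℚ) *
      ((Fintype.card K : ℚ) ^ k - (Fintype.card K : ℚ)) ≤
      (Fintype.card K : ℚ) ^ k * ((Fintype.card K : ℚ) ^ k - (Fintype.card K : ℚ)) := by
    linarith
  have h7 := le_of_mul_le_mul_right h6 h4
  linarith

theorem le_card_inf (k : ℕ) (hV : finrank K V = 2 * k) (U X : Submodule K V)
    (hU : finrank K U = k) (j : ℕ) (hX : finrank K X = 2 * k - j) (hj : j ≤ k) :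
    (Fintype.card K : ℚ) ^ (k - j) ≤ ((F (U ⊓ X)).card : ℚ) := by
  have h1 := Submodule.finrank_sup_add_finrank_inf_eq U X
  have h2 : finrank K ↥(U ⊔ X) ≤ 2 * k := hV ▸ Submodule.finrank_le _
  have h3 : k - j ≤ finrank K ↥(U ⊓ X) := by omega
  rw [card_F]
  push_cast
  exact pow_le_pow_right₀ (by exact_mod_cast Fintype.card_pos (α := K)) h3

open scoped Classical in
/-- The inequality at a vector of a member `W` which meets `S` in dimension `j`. -/
theorem degLI (k : ℕ) (hV : finrank K V = 2 * k) (C : Finset (Submodule K V))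
    (hC : ∀ U ∈ C, finrank K U = k)
    (hd : ∀ U ∈ C, ∀ W ∈ C, U ≠ W → finrank K ↥(U ⊓ W) ≤ 1)
    (S : Submodule K V) (hS : finrank K S = k) (v : V) (hv : v ∉ S)
    (W : Submodule K V) (hW : W ∈ C) (hvW : v ∈ W) (j : ℕ) (hj : finrank K ↥(W ⊓ S) = j)
    (hjk : j + 2 ≤ k) :
    ((Fintype.card K : ℚ) ^ j - 1) * ((Fintype.card K : ℚ) * (Fintype.card K : ℚ) ^ (k - 2 - j)) -
      ∑ U ∈ C.filter (fun U => v ∈ U), nu S U ≤
      ((Fintype.card K : ℚ) ^ k - ((C.filter (fun U => v ∈ U)).card : ℚ)) *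
      ((Fintype.card K : ℚ) * (Fintype.card K : ℚ) ^ (k - 2 - j) - 1) := by
  have hq : (2 : ℚ) ≤ (Fintype.card K : ℚ) := by
    exact_mod_cast Fintype.one_lt_card (α := K)
  have hX : finrank K ↥(W ⊔ S) = 2 * k - j := by
    have h1 := Submodule.finrank_sup_add_finrank_inf_eq W S
    rw [hj, hC W hW, hS] at h1
    omega
  have h1 := count C hd S (W ⊔ S) v hv (sup_le le_sup_right (by
    rw [Submodule.span_singleton_le_iff_mem]; exact Submodule.mem_sup_left hvW))
  have h2 : ∑ U ∈ C.filter (fun U => v ∈ U), (((F (U ⊓ (W ⊔ S))).card : ℚ) -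
      (Fintype.card K : ℚ) * ((F (U ⊓ S)).card : ℚ)) =
      ∑ U ∈ C.filter (fun U => v ∈ U), (((F (U ⊓ (W ⊔ S))).card : ℚ) -
        (Fintype.card K : ℚ) ^ (k - j)) +
      ((C.filter (fun U => v ∈ U)).card : ℚ) * ((Fintype.card K : ℚ) ^ (k - j) -
        (Fintype.card K : ℚ)) -
      (Fintype.card K : ℚ) * ∑ U ∈ C.filter (fun U => v ∈ U), nu S U := by
    rw [mul_sum, ← nsmul_eq_mul, ← sum_const, ← sum_add_distrib, ← sum_sub_distrib]
    refine sum_congr rfl (fun U _ => ?_)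
    unfold nu
    ring
  have h3 : (Fintype.card K : ℚ) ^ k - (Fintype.card K : ℚ) ^ (k - j) ≤
      ∑ U ∈ C.filter (fun U => v ∈ U), (((F (U ⊓ (W ⊔ S))).card : ℚ) -
        (Fintype.card K : ℚ) ^ (k - j)) := by
    have h4 : ∀ U ∈ C.filter (fun U => v ∈ U), 0 ≤ (((F (U ⊓ (W ⊔ S))).card : ℚ) -
        (Fintype.card K : ℚ) ^ (k - j)) := by
      intro U hU
      rw [mem_filter] at hU
      have := le_card_inf k hV U (W ⊔ S) (hC U hU.1) j hX (by omega)
      linarith
    have h5 := single_le_sum h4 (mem_filter.mpr ⟨hW, hvW⟩)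
    have h6 : ((F (W ⊓ (W ⊔ S))).card : ℚ) = (Fintype.card K : ℚ) ^ k := by
      rw [inf_sup_self, card_F, hC W hW]; push_cast; rfl
    rw [h6] at h5
    exact h5
  rw [h2, card_F (W ⊔ S), card_F S, hS, hX] at h1
  push_cast at h1
  have e1 : (Fintype.card K : ℚ) ^ (k - j) = (Fintype.card K : ℚ) *
      ((Fintype.card K : ℚ) * (Fintype.card K : ℚ) ^ (k - 2 - j)) := by
    rw [← mul_assoc, ← pow_two, ← pow_add]
    congr 1; omega
  have e2 : (Fintype.card K : ℚ) ^ k = (Fintype.card K : ℚ) ^ j * ((Fintype.card K : ℚ) *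
      ((Fintype.card K : ℚ) * (Fintype.card K : ℚ) ^ (k - 2 - j))) := by
    rw [← e1, ← pow_add]
    congr 1; omega
  have e3 : (Fintype.card K : ℚ) ^ (2 * k - j) =
      (Fintype.card K : ℚ) ^ k * (Fintype.card K : ℚ) ^ (k - j) := by
    rw [← pow_add]
    congr 1; omega
  rw [e3] at h1
  have hq0 : (0 : ℚ) < (Fintype.card K : ℚ) := by linarith
  generalize (Fintype.card K : ℚ) ^ (2 * k - j) = Y at *
  have key : (Fintype.card K : ℚ) * (((Fintype.card K : ℚ) ^ j - 1) * ((Fintype.card K : ℚ) *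
      (Fintype.card K : ℚ) ^ (k - 2 - j)) -
      ∑ U ∈ C.filter (fun U => v ∈ U), nu S U) ≤ (Fintype.card K : ℚ) *
      (((Fintype.card K : ℚ) ^ k - ((C.filter (fun U => v ∈ U)).card : ℚ)) *
      ((Fintype.card K : ℚ) * (Fintype.card K : ℚ) ^ (k - 2 - j) - 1)) := by
    have h7 : (Fintype.card K : ℚ) ^ k - (Fintype.card K : ℚ) ^ (k - j) +
        ((C.filter (fun U => v ∈ U)).card : ℚ) * ((Fintype.card K : ℚ) ^ (k - j) -
          (Fintype.card K : ℚ)) -
        (Fintype.card K : ℚ) * ∑ U ∈ C.filter (fun U => v ∈ U), nu S U ≤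
        (Fintype.card K : ℚ) ^ k * (Fintype.card K : ℚ) ^ (k - j) -
        (Fintype.card K : ℚ) * (Fintype.card K : ℚ) ^ k := by linarith
    have e4 : (Fintype.card K : ℚ) * (((Fintype.card K : ℚ) ^ j - 1) * ((Fintype.card K : ℚ) *
        (Fintype.card K : ℚ) ^ (k - 2 - j)) -
        ∑ U ∈ C.filter (fun U => v ∈ U), nu S U) =
        (Fintype.card K : ℚ) ^ k - (Fintype.card K : ℚ) ^ (k - j) -
        (Fintype.card K : ℚ) * ∑ U ∈ C.filter (fun U => v ∈ U), nu S U := by
      rw [e2, e1]; ring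
    have e5 : (Fintype.card K : ℚ) *
        (((Fintype.card K : ℚ) ^ k - ((C.filter (fun U => v ∈ U)).card : ℚ)) *
        ((Fintype.card K : ℚ) * (Fintype.card K : ℚ) ^ (k - 2 - j) - 1)) =
        ((Fintype.card K : ℚ) ^ k - ((C.filter (fun U => v ∈ U)).card : ℚ)) *
        ((Fintype.card K : ℚ) ^ (k - j) - (Fintype.card K : ℚ)) := by
      rw [e1]; ring
    rw [e4, e5]
    linarith
  exact le_of_mul_le_mul_left key hq0

open scoped Classical in
/-- The sum of the weights over the vectors of a member. -/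
theorem sum_mu (k : ℕ) (C : Finset (Submodule K V)) (hC : ∀ U ∈ C, finrank K U = k)
    (hd : ∀ U ∈ C, ∀ W ∈ C, U ≠ W → finrank K ↥(U ⊓ W) ≤ 1)
    (S : Submodule K V) (W : Submodule K V) (hW : W ∈ C) :
    ((univ.filter (fun v : V => v ∉ S)).filter (fun v => v ∈ W)).card =
      ((Fintype.card K : ℚ) ^ k - (nu S W + 1)) ∧
    ∑ v ∈ (univ.filter (fun v : V => v ∉ S)).filter (fun v => v ∈ W),
      ∑ U ∈ C.filter (fun U => v ∈ U), nu S U ≤
      ((Fintype.card K : ℚ) ^ k - (nu S W + 1)) * nu S W +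
      ((Fintype.card K : ℚ) - 1) * (∑ U ∈ C, nu S U - nu S W) := by
  have c1 : (((univ.filter (fun v : V => v ∉ S)).filter (fun v => v ∈ W)).card : ℚ) =
      ((Fintype.card K : ℚ) ^ k - (nu S W + 1)) := by
    have h1 : (univ.filter (fun v : V => v ∉ S)).filter (fun v => v ∈ W) = F W \ F (W ⊓ S) := by
      ext x
      simp only [mem_filter, mem_univ, true_and, mem_sdiff, mem_F, Submodule.mem_inf]
      tauto
    have h2 : F (W ⊓ S) ⊆ F W := F_mono inf_le_left
    rw [h1, card_sdiff_of_subset h2, Nat.cast_sub (card_le_card h2), card_F W, hC W hW]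
    unfold nu
    push_cast
    ring
  refine ⟨c1, ?_⟩
  have h1 : ∑ v ∈ (univ.filter (fun v : V => v ∉ S)).filter (fun v => v ∈ W),
      ∑ U ∈ C.filter (fun U => v ∈ U), nu S U =
      ∑ U ∈ C, (((univ.filter (fun v : V => v ∉ S)).filter (fun v => v ∈ W)).filter
        (fun v => v ∈ U)).card * nu S U := by
    have h2 : ∀ v ∈ (univ.filter (fun v : V => v ∉ S)).filter (fun v => v ∈ W),
        ∑ U ∈ C.filter (fun U => v ∈ U), nu S U = ∑ U ∈ C, if v ∈ U then nu S U else 0 :=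
      fun v _ => sum_filter _ _
    rw [sum_congr rfl h2, sum_comm]
    refine sum_congr rfl (fun U _ => ?_)
    rw [← sum_filter, sum_const, nsmul_eq_mul]
  rw [h1, ← add_sum_erase C _ hW]
  have h3 : (((univ.filter (fun v : V => v ∉ S)).filter (fun v => v ∈ W)).filter
        (fun v => v ∈ W)) = ((univ.filter (fun v : V => v ∉ S)).filter (fun v => v ∈ W)) := by
    rw [filter_filter]
    refine filter_congr (fun v _ => and_self_iff)
  rw [h3, c1]
  have h4 : ∑ U ∈ C, nu S U - nu S W = ∑ U ∈ C.erase W, nu S U := by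
    rw [← add_sum_erase C _ hW]; ring
  rw [h4, mul_sum]
  refine add_le_add le_rfl (sum_le_sum (fun U hU => ?_))
  refine mul_le_mul_of_nonneg_right ?_ (nu_nonneg S U)
  rw [mem_erase] at hU
  have h5 : (((univ.filter (fun v : V => v ∉ S)).filter (fun v => v ∈ W)).filter
        (fun v => v ∈ U)) ⊆ (F (U ⊓ W)).erase 0 := by
    intro x hx
    simp only [mem_filter, mem_univ, true_and] at hx
    rw [mem_erase, mem_F, Submodule.mem_inf]
    exact ⟨fun h => hx.1.1 (h ▸ S.zero_mem), hx.2, hx.1.2⟩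
  have h6 := card_le_card h5
  rw [card_erase_of_mem ((mem_F _ _).mpr (Submodule.zero_mem _)), card_F] at h6
  have h7 : Fintype.card K ^ finrank K ↥(U ⊓ W) ≤ Fintype.card K := by
    calc Fintype.card K ^ finrank K ↥(U ⊓ W) ≤ Fintype.card K ^ 1 :=
          Nat.pow_le_pow_right Fintype.card_pos (hd U hU.2 W hW hU.1)
      _ = Fintype.card K := pow_one _
  have h8 : (((univ.filter (fun v : V => v ∉ S)).filter (fun v => v ∈ W)).filter
        (fun v => v ∈ U)).card + 1 ≤ Fintype.card K := by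
    have := Fintype.card_pos (α := K)
    omega
  have h9 : ((((univ.filter (fun v : V => v ∉ S)).filter (fun v => v ∈ W)).filter
        (fun v => v ∈ U)).card : ℚ) + 1 ≤ (Fintype.card K : ℚ) := by exact_mod_cast h8
  linarith

end Pool.Agent.MP8bL
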