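import Pool.Agent.Lib.MP_8b575b_co.Light.Poly
import Pool.Agent.Lib.MP_8b575b_co.Light.Core
import Pool.Agent.Lib.MP_8b575b_co.Light.Deg

/-!
# Codes with a light subspace
-/

set_option autoImplicit false
set_option linter.unusedSectionVars false

namespace Pool.Agent.MP8bL

open Finset Module

variable {K V : Type} [Field K] [Fintype K] [AddCommGroup V] [Module K V] [Fintype V]

theorem nu_eq (S U : Submodule K V) :
    nu S U = (Fintype.card K : ℚ) ^ finrank K ↥(U ⊓ S) - 1 := by
  unfold nu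
  rw [card_F]
  push_cast
  ring

open scoped Classical in
/-- The code without a member meeting `S` in dimension at least `k - 1`. -/
theorem light_core (k : ℕ) (hk : 4 ≤ k) (hV : finrank K V = 2 * k)
    (C : Finset (Submodule K V)) (hC : ∀ U ∈ C, finrank K U = k)
    (hd : ∀ U ∈ C, ∀ W ∈ C, U ≠ W → finrank K ↥(U ⊓ W) ≤ 1)
    (S : Submodule K V) (hS : finrank K S = k)
    (hj : ∀ U ∈ C, finrank K ↥(U ⊓ S) + 2 ≤ k)
    (h : ∑ U ∈ C, nu S U ≤ ((Fintype.card K : ℚ) - 1) * (Fintype.card K : ℚ) ^ (2 * k - 3)) :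
    C.card ≤ Fintype.card K ^ (2 * k) := by
  have hq : (2 : ℚ) ≤ (Fintype.card K : ℚ) := by
    exact_mod_cast Fintype.one_lt_card (α := K)
  have hq0 : (0 : ℚ) < (Fintype.card K : ℚ) := by linarith
  -- the sum over the vectors outside `S`
  have key := core2 (univ.filter (fun v : V => v ∉ S)) C (fun v U => v ∈ U) (nu S)
    (fun v => (Fintype.card K : ℚ) ^ k - ((C.filter (fun U => v ∈ U)).card : ℚ))
    (fun U _ => nu_nonneg S U)
    (fun v hv h0 => deg0 k (by omega) hV C hC hd S hS v (mem_filter.mp hv).2 h0)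
    (by
      intro W hW hpos
      obtain ⟨hn, hsum⟩ := sum_mu k C hC hd S W hW
      have hjW : finrank K ↥(W ⊓ S) ≠ 0 := by
        intro h0
        rw [nu_eq, h0, pow_zero, sub_self] at hpos
        exact lt_irrefl _ hpos
      have hjk := hj W hW
      obtain ⟨j, hjj⟩ : ∃ j, finrank K ↥(W ⊓ S) = j := ⟨_, rfl⟩
      rw [hjj] at hjW hjk
      have hnu : nu S W = (Fintype.card K : ℚ) ^ j - 1 := by rw [nu_eq, hjj]
      rw [hnu] at hn hsum hpos
      -- parameters
      have hqk : (Fintype.card K : ℚ) ^ k = (Fintype.card K : ℚ) ^ j *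
          ((Fintype.card K : ℚ) ^ 2 * (Fintype.card K : ℚ) ^ (k - 2 - j)) := by
        rw [← pow_add, ← pow_add]; congr 1; omega
      have hA0 : ((Fintype.card K : ℚ) - 1) * (Fintype.card K : ℚ) ^ (2 * k - 3) =
          ((Fintype.card K : ℚ) - 1) * (Fintype.card K : ℚ) * ((Fintype.card K : ℚ) ^ j) ^ 2 *
            ((Fintype.card K : ℚ) ^ (k - 2 - j)) ^ 2 := by
        have e1 : (Fintype.card K : ℚ) ^ (2 * k - 3) = (Fintype.card K : ℚ) *
            (((Fintype.card K : ℚ) ^ j) ^ 2 * ((Fintype.card K : ℚ) ^ (k - 2 - j)) ^ 2) := by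
          rw [← pow_mul, ← pow_mul, ← pow_add, ← pow_succ']
          congr 1; omega
        rw [e1]; ring
      have hcase : ((Fintype.card K : ℚ) ^ 2 ≤ (Fintype.card K : ℚ) ^ j ∧
          1 ≤ (Fintype.card K : ℚ) ^ (k - 2 - j)) ∨
          ((Fintype.card K : ℚ) ≤ (Fintype.card K : ℚ) ^ j ∧
          (Fintype.card K : ℚ) ≤ (Fintype.card K : ℚ) ^ (k - 2 - j)) := by
        rcases Nat.lt_or_ge j 2 with h2 | h2
        · right
          refine ⟨?_, ?_⟩
          · calc (Fintype.card K : ℚ) = (Fintype.card K : ℚ) ^ 1 := (pow_one _).symm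
              _ ≤ _ := pow_le_pow_right₀ (by linarith) (by omega)
          · calc (Fintype.card K : ℚ) = (Fintype.card K : ℚ) ^ 1 := (pow_one _).symm
              _ ≤ _ := pow_le_pow_right₀ (by linarith) (by omega)
        · left
          exact ⟨pow_le_pow_right₀ (by linarith) h2, one_le_pow₀ (by linarith)⟩
      have hpoly := poly (Fintype.card K : ℚ) ((Fintype.card K : ℚ) ^ j)
        ((Fintype.card K : ℚ) ^ (k - 2 - j)) hq hcase
      have hd1 : (1 : ℚ) ≤ (Fintype.card K : ℚ) ^ (k - 2 - j) := one_le_pow₀ (by linarith)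
      have ha1 : (1 : ℚ) ≤ (Fintype.card K : ℚ) ^ j := one_le_pow₀ (by linarith)
      have hLI : ∀ v ∈ (univ.filter (fun v : V => v ∉ S)).filter (fun v => v ∈ W),
          ((Fintype.card K : ℚ) ^ j - 1) * ((Fintype.card K : ℚ) *
            (Fintype.card K : ℚ) ^ (k - 2 - j)) -
          ∑ U ∈ C.filter (fun U => v ∈ U), nu S U ≤
          ((Fintype.card K : ℚ) ^ k - ((C.filter (fun U => v ∈ U)).card : ℚ)) *
          ((Fintype.card K : ℚ) * (Fintype.card K : ℚ) ^ (k - 2 - j) - 1) := by
        intro v hv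
        rw [mem_filter, mem_filter] at hv
        exact degLI k hV C hC hd S hS v hv.1.2 W hW hv.2 j hjj hjk
      have hμ : ∀ v ∈ (univ.filter (fun v : V => v ∉ S)).filter (fun v => v ∈ W),
          0 < ∑ U ∈ C.filter (fun U => v ∈ U), nu S U := by
        intro v hv
        rw [mem_filter] at hv
        have h1 := single_le_sum (fun U (_ : U ∈ C.filter (fun U => v ∈ U)) => nu_nonneg S U)
          (mem_filter.mpr ⟨hW, hv.2⟩)
        rw [hnu] at h1
        linarith
      generalize hQk : (Fintype.card K : ℚ) ^ k = Qk at *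
      generalize hQa : (Fintype.card K : ℚ) ^ j = a at *
      generalize hQd : (Fintype.card K : ℚ) ^ (k - 2 - j) = d at *
      generalize hQ0 : (Fintype.card K : ℚ) = q at *
      have hn0 : Qk - (a - 1 + 1) = a * (q ^ 2 * d - 1) := by rw [hqk]; ring
      rw [hn0] at hn hsum
      have hnpos : 0 < a * (q ^ 2 * d - 1) := by
        apply mul_pos (by linarith)
        nlinarith
      have hWle : a - 1 ≤ ∑ U ∈ C, nu S U := by
        have h1 := single_le_sum (fun U (_ : U ∈ C) => nu_nonneg S U) hW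
        rw [hnu] at h1
        exact h1
      refine core1 _ _ _ ((a - 1) * (q * d)) (q * d) (a * (q ^ 2 * d - 1))
        (a * (q ^ 2 * d - 1) * (a - 1) + (q - 1) * ((q - 1) * q * a ^ 2 * d ^ 2 - (a - 1)))
        hμ ?_ ?_ hLI hn ?_ ?_ hpoly
      · exact mul_nonneg (by linarith) (by positivity)
      · nlinarith
      · have h1 : 0 < a * (q ^ 2 * d - 1) * (a - 1) := mul_pos hnpos hpos
        have h2 : 0 ≤ (q - 1) * ((q - 1) * q * a ^ 2 * d ^ 2 - (a - 1)) := by
          apply mul_nonneg (by linarith)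
          rw [hA0] at h
          linarith
        linarith
      · refine hsum.trans (add_le_add le_rfl ?_)
        refine mul_le_mul_of_nonneg_left ?_ (by linarith)
        rw [hA0] at h
        linarith)
  -- the global identity
  have hcard : ((univ.filter (fun v : V => v ∉ S)).card : ℚ) =
      (Fintype.card K : ℚ) ^ k * (Fintype.card K : ℚ) ^ k - (Fintype.card K : ℚ) ^ k := by
    have h1 : univ.filter (fun v : V => v ∉ S) = F (⊤ : Submodule K V) \ F S := by
      ext x
      simp only [mem_filter, mem_univ, true_and, mem_sdiff, mem_F, Submodule.mem_top]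
    rw [h1, card_sdiff_of_subset (F_mono le_top), Nat.cast_sub (card_le_card (F_mono le_top)),
      card_F ⊤, card_F S, hS, finrank_top, hV, two_mul, pow_add]
    push_cast
    ring
  have hdeg : ∑ v ∈ univ.filter (fun v : V => v ∉ S), ((C.filter (fun U => v ∈ U)).card : ℚ) =
      (C.card : ℚ) * ((Fintype.card K : ℚ) ^ k - 1) - ∑ U ∈ C, nu S U := by
    have h1 : ∀ v ∈ univ.filter (fun v : V => v ∉ S), ((C.filter (fun U => v ∈ U)).card : ℚ) =
        ∑ U ∈ C, if v ∈ U then (1 : ℚ) else 0 := by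
      intro v _
      rw [← sum_filter, sum_const, nsmul_eq_mul, mul_one]
    rw [sum_congr rfl h1, sum_comm, ← nsmul_eq_mul, ← sum_const, ← sum_sub_distrib]
    refine sum_congr rfl (fun U hU => ?_)
    rw [← sum_filter, sum_const, nsmul_eq_mul, mul_one, (sum_mu k C hC hd S U hU).1]
    ring
  rw [sum_sub_distrib, hdeg, sum_const, nsmul_eq_mul, hcard] at key
  have hQ1 : (0 : ℚ) < (Fintype.card K : ℚ) ^ k - 1 := by
    have h1 : (Fintype.card K : ℚ) ^ 1 ≤ (Fintype.card K : ℚ) ^ k :=
      pow_le_pow_right₀ (by linarith) (by omega)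
    rw [pow_one] at h1
    linarith
  have hfin : (C.card : ℚ) * ((Fintype.card K : ℚ) ^ k - 1) ≤
      ((Fintype.card K : ℚ) ^ k * (Fintype.card K : ℚ) ^ k) * ((Fintype.card K : ℚ) ^ k - 1) := by
    linarith
  have hfin2 := le_of_mul_le_mul_right hfin hQ1
  rw [two_mul, pow_add]
  exact_mod_cast hfin2

end Pool.Agent.MP8bL
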