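import Mathlib

/-!
# Linear algebra counts for codes with a light subspace
-/

set_option autoImplicit false
set_option linter.unusedSectionVars false

namespace Pool.Agent.MP8bL

open Finset Module

variable {K V : Type} [Field K] [Fintype K] [AddCommGroup V] [Module K V] [Fintype V]

open scoped Classical in
/-- The vectors of a subspace. -/
noncomputable def F (U : Submodule K V) : Finset V := univ.filter (fun v => v ∈ U)

theorem mem_F (U : Submodule K V) (v : V) : v ∈ F U ↔ v ∈ U := by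
  simp [F]

theorem card_F (U : Submodule K V) : (F U).card = Fintype.card K ^ finrank K U := by
  classical
  have h1 : (F U).card = Fintype.card U := by
    rw [Fintype.card_subtype]; rfl
  rw [h1]
  exact Module.card_eq_pow_finrank

theorem F_mono {U W : Submodule K V} (h : U ≤ W) : F U ⊆ F W := by
  intro v hv
  rw [mem_F] at hv ⊢
  exact h hv

theorem finrank_sup_span (S : Submodule K V) (v : V) (hv : v ∉ S) :
    finrank K ↥(S ⊔ K ∙ v) = finrank K S + 1 := by
  have h1 := Submodule.finrank_sup_add_finrank_inf_eq S (K ∙ v)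
  have h0 : v ≠ 0 := fun h => hv (h ▸ S.zero_mem)
  have h2 : S ⊓ (K ∙ v) = ⊥ := by
    rw [Submodule.eq_bot_iff]
    intro x hx
    obtain ⟨hx1, hx2⟩ := Submodule.mem_inf.mp hx
    obtain ⟨a, rfl⟩ := Submodule.mem_span_singleton.mp hx2
    by_cases ha : a = 0
    · rw [ha, zero_smul]
    · exact absurd ((Submodule.smul_mem_iff S ha).mp hx1) hv
  rw [h2, finrank_bot, finrank_span_singleton h0] at h1
  omega

theorem inf_sup_span (S U : Submodule K V) (v : V) (hv : v ∈ U) :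
    U ⊓ (S ⊔ K ∙ v) = (U ⊓ S) ⊔ K ∙ v := by
  have h1 : K ∙ v ≤ U := by
    rw [Submodule.span_singleton_le_iff_mem]; exact hv
  rw [inf_comm U, inf_comm U, sup_comm S, sup_comm (S ⊓ U)]
  exact sup_inf_assoc_of_le S h1

theorem card_inf_sup_span (S U : Submodule K V) (v : V) (hv : v ∈ U) (hvS : v ∉ S) :
    (F (U ⊓ (S ⊔ K ∙ v))).card = Fintype.card K * (F (U ⊓ S)).card := by
  rw [inf_sup_span S U v hv, card_F, card_F,
    finrank_sup_span (U ⊓ S) v (fun h => hvS (Submodule.mem_inf.mp h).2), pow_succ]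
  ring

/-- Two subspaces which meet in dimension at most one and share `v ≠ 0` meet in `⟨v⟩`. -/
theorem mem_span_of_mem (U W : Submodule K V) (h : finrank K ↥(U ⊓ W) ≤ 1) (v x : V)
    (hv0 : v ≠ 0) (hvU : v ∈ U) (hvW : v ∈ W) (hxU : x ∈ U) (hxW : x ∈ W) : x ∈ K ∙ v := by
  have h1 : K ∙ v ≤ U ⊓ W := by
    rw [Submodule.span_singleton_le_iff_mem]; exact Submodule.mem_inf.mpr ⟨hvU, hvW⟩
  have h2 : K ∙ v = U ⊓ W := by
    apply Submodule.eq_of_le_of_finrank_le h1
    rw [finrank_span_singleton hv0]; exact h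
  rw [h2]; exact Submodule.mem_inf.mpr ⟨hxU, hxW⟩

open scoped Classical in
/-- The basic packing inequality at a vector `v` outside `S`, inside a subspace `X ⊇ S + ⟨v⟩`. -/
theorem count (C : Finset (Submodule K V))
    (hd : ∀ U ∈ C, ∀ W ∈ C, U ≠ W → finrank K ↥(U ⊓ W) ≤ 1)
    (S X : Submodule K V) (v : V) (hv : v ∉ S) (hX : S ⊔ K ∙ v ≤ X) :
    ∑ U ∈ C.filter (fun U => v ∈ U), (((F (U ⊓ X)).card : ℚ) -
      (Fintype.card K : ℚ) * ((F (U ⊓ S)).card : ℚ)) ≤
      ((F X).card : ℚ) - (Fintype.card K : ℚ) * ((F S).card : ℚ) := by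
  have hv0 : v ≠ 0 := fun h => hv (h ▸ S.zero_mem)
  have h1 : ∀ U ∈ C.filter (fun U => v ∈ U),
      ((F (U ⊓ X) \ F (S ⊔ K ∙ v)).card : ℚ) = ((F (U ⊓ X)).card : ℚ) -
      (Fintype.card K : ℚ) * ((F (U ⊓ S)).card : ℚ) := by
    intro U hU
    rw [mem_filter] at hU
    have h2 : F (U ⊓ X) \ F (S ⊔ K ∙ v) = F (U ⊓ X) \ F (U ⊓ (S ⊔ K ∙ v)) := by
      ext x
      simp only [mem_sdiff, mem_F, Submodule.mem_inf]
      tauto
    have h3 : F (U ⊓ (S ⊔ K ∙ v)) ⊆ F (U ⊓ X) := F_mono (inf_le_inf_left U hX)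
    rw [h2, card_sdiff_of_subset h3, Nat.cast_sub (card_le_card h3),
      card_inf_sup_span S U v hU.2 hv, Nat.cast_mul]
  have h4 : (((F X) \ F (S ⊔ K ∙ v)).card : ℚ) = ((F X).card : ℚ) -
      (Fintype.card K : ℚ) * ((F S).card : ℚ) := by
    have h3 : F (S ⊔ K ∙ v) ⊆ F X := F_mono hX
    rw [card_sdiff_of_subset h3, Nat.cast_sub (card_le_card h3), card_F (S ⊔ K ∙ v),
      finrank_sup_span S v hv, card_F S, pow_succ]
    push_cast
    ring
  rw [← h4, ← sum_congr rfl h1, ← Nat.cast_sum]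
  rw [← card_biUnion]
  · refine Nat.cast_le.mpr (card_le_card ?_)
    intro x hx
    rw [mem_biUnion] at hx
    obtain ⟨U, _, hx⟩ := hx
    rw [mem_sdiff, mem_F, mem_F, Submodule.mem_inf] at hx
    rw [mem_sdiff, mem_F, mem_F]
    exact ⟨hx.1.2, hx.2⟩
  · intro U hU W hW hne
    rw [Function.onFun, disjoint_left]
    intro x hx hx'
    simp only [coe_filter, Set.mem_ofPred_eq] at hU hW
    rw [mem_sdiff, mem_F, mem_F, Submodule.mem_inf] at hx hx'
    exact hx.2 (Submodule.mem_sup_right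
      (mem_span_of_mem U W (hd U hU.1 W hW.1 hne) v x hv0 hU.2 hW.2 hx.1.1 hx'.1.1))

end Pool.Agent.MP8bL
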