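import Pool.Agent.Lib.MP_8b575b_co.Light.Fin

/-!
# Codes with a light subspace: the theorem
-/

set_option autoImplicit false

namespace Pool.Agent.MP8bL

open Finset Module

open scoped Classical in
theorem light_main (K V : Type) [Field K] [Fintype K] [AddCommGroup V] [Module K V] (k : ℕ)
    (hk : 4 ≤ k) (hV : finrank K V = 2 * k)
    (C : Finset (Submodule K V)) (hC : ∀ U ∈ C, finrank K U = k)
    (hd : ∀ U ∈ C, ∀ W ∈ C, U ≠ W → finrank K ↥(U ⊓ W) ≤ 1)
    (S U₀ : Submodule K V) (hS : finrank K S = k)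
    (h : ∑ U ∈ C.erase U₀, (Fintype.card K ^ finrank K ↥(U ⊓ S) - 1) ≤
      (Fintype.card K - 1) * Fintype.card K ^ (2 * k - 3)) :
    C.card ≤ Fintype.card K ^ (2 * k) + 1 := by
  have : FiniteDimensional K V := FiniteDimensional.of_finrank_pos (by omega)
  have : Finite V := Module.finite_of_finite K
  have : Fintype V := Fintype.ofFinite V
  have hqN : 1 ≤ Fintype.card K := Fintype.card_pos
  have hq : (2 : ℚ) ≤ (Fintype.card K : ℚ) := by
    exact_mod_cast Fintype.one_lt_card (α := K)
  have h' : ∑ U ∈ C.erase U₀, nu S U ≤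
      ((Fintype.card K : ℚ) - 1) * (Fintype.card K : ℚ) ^ (2 * k - 3) := by
    have e1 : ∑ U ∈ C.erase U₀, nu S U =
        ((∑ U ∈ C.erase U₀, (Fintype.card K ^ finrank K ↥(U ⊓ S) - 1) : ℕ) : ℚ) := by
      rw [Nat.cast_sum]
      refine sum_congr rfl (fun U _ => ?_)
      rw [nu_eq, Nat.cast_sub (Nat.one_le_pow _ _ hqN)]
      push_cast
      ring
    have e2 : ((Fintype.card K : ℚ) - 1) * (Fintype.card K : ℚ) ^ (2 * k - 3) =
        (((Fintype.card K - 1) * Fintype.card K ^ (2 * k - 3) : ℕ) : ℚ) := by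
      rw [Nat.cast_mul, Nat.cast_sub hqN]
      push_cast
      ring
    rw [e1, e2]
    exact_mod_cast h
  have hmono : ∀ U W : Submodule K V, finrank K ↥(U ⊓ S) ≤ finrank K ↥(W ⊓ S) →
      nu S U ≤ nu S W := by
    intro U W hUW
    rw [nu_eq, nu_eq]
    have := pow_le_pow_right₀ (by linarith : (1 : ℚ) ≤ (Fintype.card K : ℚ)) hUW
    linarith
  by_cases hex : ∃ W ∈ C, k < finrank K ↥(W ⊓ S) + 2
  · obtain ⟨W, hW, hWk⟩ := hex
    have hother : ∀ U ∈ C, U ≠ W → finrank K ↥(U ⊓ S) + 2 ≤ k := by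
      intro U hU hne
      by_contra hcon
      have h1 := Submodule.finrank_sup_add_finrank_inf_eq (U ⊓ S) (W ⊓ S)
      have h2 : finrank K ↥((U ⊓ S) ⊔ (W ⊓ S)) ≤ k :=
        hS ▸ Submodule.finrank_mono (sup_le inf_le_right inf_le_right)
      have h3 : finrank K ↥((U ⊓ S) ⊓ (W ⊓ S)) ≤ finrank K ↥(U ⊓ W) :=
        Submodule.finrank_mono (inf_le_inf inf_le_left inf_le_left)
      have h4 := hd U hU W hW hne
      omega
    have hsum : ∑ U ∈ C.erase W, nu S U ≤
        ((Fintype.card K : ℚ) - 1) * (Fintype.card K : ℚ) ^ (2 * k - 3) := by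
      refine le_trans ?_ h'
      by_cases hWU : W = U₀
      · rw [hWU]
      · have e1 := add_sum_erase C (nu S) hW
        by_cases hU0 : U₀ ∈ C
        · have e2 := add_sum_erase C (nu S) hU0
          have h5 := hother U₀ hU0 (fun h => hWU h.symm)
          have h6 := hmono U₀ W (by omega)
          linarith
        · rw [erase_eq_of_notMem hU0]
          have := nu_nonneg S W
          linarith
    have key := light_core k hk hV (C.erase W) (fun U hU => hC U (mem_of_mem_erase hU))
      (fun U hU U' hU' => hd U (mem_of_mem_erase hU) U' (mem_of_mem_erase hU')) S hS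
      (fun U hU => hother U (mem_of_mem_erase hU) (ne_of_mem_erase hU)) hsum
    rw [card_erase_of_mem hW] at key
    omega
  · push Not at hex
    have key := light_core k hk hV (C.erase U₀) (fun U hU => hC U (mem_of_mem_erase hU))
      (fun U hU U' hU' => hd U (mem_of_mem_erase hU) U' (mem_of_mem_erase hU')) S hS
      (fun U hU => hex U (mem_of_mem_erase hU)) h'
    have h1 : C.card - 1 ≤ (C.erase U₀).card := pred_card_le_card_erase
    omega

end Pool.Agent.MP8bL
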