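import Mathlib

/-!
# Polynomial inequality for codes with a light subspace
-/

set_option autoImplicit false

namespace Pool.Agent.MP8bL

theorem polyA (z x y : ℚ) (hz : 0 ≤ z) (hx : 0 ≤ x) (hy : 0 ≤ y) :
    0 ≤ (((2 + z) ^ 2 + x) - 1) * ((2 + z) * (1 + y)) *
        ((((2 + z) ^ 2 + x)) * ((2 + z) ^ 2 * (1 + y) - 1)) ^ 2 -
      ((((2 + z) ^ 2 + x)) * ((2 + z) ^ 2 * (1 + y) - 1) + (2 + z) * (1 + y) - 1) *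
        ((((2 + z) ^ 2 + x)) * ((2 + z) ^ 2 * (1 + y) - 1) * (((2 + z) ^ 2 + x) - 1) +
          ((2 + z) - 1) * (((2 + z) - 1) * (2 + z) * ((2 + z) ^ 2 + x) ^ 2 * (1 + y) ^ 2 -
            (((2 + z) ^ 2 + x) - 1))) := by
  ring_nf
  positivity

theorem polyB (z x y : ℚ) (hz : 0 ≤ z) (hx : 0 ≤ x) (hy : 0 ≤ y) :
    0 ≤ (((2 + z) + x) - 1) * ((2 + z) * ((2 + z) + y)) *
        ((((2 + z) + x)) * ((2 + z) ^ 2 * ((2 + z) + y) - 1)) ^ 2 -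
      ((((2 + z) + x)) * ((2 + z) ^ 2 * ((2 + z) + y) - 1) + (2 + z) * ((2 + z) + y) - 1) *
        ((((2 + z) + x)) * ((2 + z) ^ 2 * ((2 + z) + y) - 1) * (((2 + z) + x) - 1) +
          ((2 + z) - 1) * (((2 + z) - 1) * (2 + z) * ((2 + z) + x) ^ 2 * ((2 + z) + y) ^ 2 -
            (((2 + z) + x) - 1))) := by
  ring_nf
  positivity

/-- The inequality behind the theorem on light subspaces. -/
theorem poly (q a d : ℚ) (hq : 2 ≤ q) (h : (q ^ 2 ≤ a ∧ 1 ≤ d) ∨ (q ≤ a ∧ q ≤ d)) :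
    (a * (q ^ 2 * d - 1) + q * d - 1) *
        (a * (q ^ 2 * d - 1) * (a - 1) + (q - 1) * ((q - 1) * q * a ^ 2 * d ^ 2 - (a - 1))) ≤
      (a - 1) * (q * d) * (a * (q ^ 2 * d - 1)) ^ 2 := by
  obtain ⟨z, hz, rfl⟩ : ∃ z : ℚ, 0 ≤ z ∧ q = 2 + z := ⟨q - 2, by linarith, by ring⟩
  rcases h with ⟨ha, hd⟩ | ⟨ha, hd⟩
  · obtain ⟨x, hx, rfl⟩ : ∃ x : ℚ, 0 ≤ x ∧ a = (2 + z) ^ 2 + x :=
      ⟨a - (2 + z) ^ 2, by linarith, by ring⟩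
    obtain ⟨y, hy, rfl⟩ : ∃ y : ℚ, 0 ≤ y ∧ d = 1 + y := ⟨d - 1, by linarith, by ring⟩
    exact sub_nonneg.mp (polyA z x y hz hx hy)
  · obtain ⟨x, hx, rfl⟩ : ∃ x : ℚ, 0 ≤ x ∧ a = (2 + z) + x :=
      ⟨a - (2 + z), by linarith, by ring⟩
    obtain ⟨y, hy, rfl⟩ : ∃ y : ℚ, 0 ≤ y ∧ d = (2 + z) + y :=
      ⟨d - (2 + z), by linarith, by ring⟩
    exact sub_nonneg.mp (polyB z x y hz hx hy)

end Pool.Agent.MP8bL
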